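import Pool.Agent.Helper74.DI.St

/-! # Project DI, module GRO: growth -/

set_option autoImplicit false

namespace Pool.Agent.Helper40.DI

open Pool.Agent.Helper74 Pool.Agent.Helper74.DI

private lemma gro_step (c : Bool × ℤ × ℤ) (B : ℤ) (h1 : |c.2.1| ≤ B) (h2 : |c.2.2| ≤ B)
    (t s : Bool) :
    |(st1 c (.op t s)).2.1| ≤ 2 * B ∧ |(st1 c (.op t s)).2.2| ≤ 2 * B := by
  obtain ⟨b, p, q⟩ := c
  have h1' : |p| ≤ B := h1
  have h2' : |q| ≤ B := h2
  rw [abs_le] at h1' h2'
  cases t <;> cases s <;> cases b <;>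
    simp only [st1, if_true, Bool.false_eq_true, if_false] <;>
    constructor <;> rw [abs_le] <;> constructor <;> linarith [h1'.1, h1'.2, h2'.1, h2'.2]

/-- module GRO of project DI -/
theorem hGRO : StGRO := by
  intro w
  induction w with
  | nil =>
    intro c B h1 h2
    rw [run_nil]
    have e : (2 : ℤ) ^ no [] * B = B := by simp [no]
    rw [e]
    exact ⟨h1, h2⟩
  | cons a w ih =>
    intro c B h1 h2
    rw [run_cons]
    cases a with
    | op t s =>
      obtain ⟨k1, k2⟩ := gro_step c B h1 h2 t s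
      have h := ih (st1 c (.op t s)) (2 * B) k1 k2
      have e : (2 : ℤ) ^ no (.op t s :: w) * B = 2 ^ no w * (2 * B) := by
        show (2 : ℤ) ^ (no w + 1) * B = 2 ^ no w * (2 * B)
        rw [pow_succ]
        ring
      rw [e]
      exact h
    | nop => exact ih c B h1 h2
    | tog => exact ih (!c.1, c.2) B h1 h2

end Pool.Agent.Helper40.DI
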